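import Pool.Agent.H.MP_b1ca72_ag.Defs

open MvPolynomial

set_option maxHeartbeats 400000

namespace Pool.Agent.H.MP_b1ca72_ag

abbrev S := MvPolynomial (Fin 3) ℂ

def mm : Fin 11 → ℕ := ![3, 3, 3, 3, 3, 3, 3, 3, 1, 1, 1]

def Good (p : Fin 11 → Fin 3 → ℂ) : Prop :=
  (∀ i, p i ≠ 0) ∧ (∀ i j, i ≠ j → ∀ c : ℂ, p i ≠ c • p j) ∧
    ∃ F : S, F.IsHomogeneous 9 ∧ Squarefree F ∧ (∀ i, HasMult F (p i) (mm i)) ∧
      ∃ x : Fin 3 → ℂ, x ≠ 0 ∧ (∀ i, ∀ c : ℂ, x ≠ c • p i) ∧ HasMult F x 3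

lemma mem_pow_of_hom {R R' : Type*} [CommRing R] [CommRing R'] (σ : R →+* R') (I : Ideal R)
    (J : Ideal R') (h : ∀ a ∈ I, σ a ∈ J) (k : ℕ) (F : R) (hF : F ∈ I ^ k) : σ F ∈ J ^ k := by
  have h1 : I.map σ ≤ J := Ideal.map_le_iff_le_comap.2 h
  have h2 : σ F ∈ (I ^ k).map σ := Ideal.mem_map_of_mem σ hF
  rw [Ideal.map_pow] at h2
  exact Ideal.pow_right_mono h1 k h2

noncomputable def sub (g : Matrix (Fin 3) (Fin 3) ℂ) : S →ₐ[ℂ] S :=
  aeval (fun i => ∑ j, C (g i j) * X j)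

lemma eval_sub' (g : Matrix (Fin 3) (Fin 3) ℂ) (v : Fin 3 → ℂ) (F : S) :
    eval v (sub g F) = eval (g.mulVec v) F := by
  induction F using MvPolynomial.induction_on with
  | C a => simp [sub]
  | add p q hp hq => simp [hp, hq]
  | mul_X p i hp =>
    rw [map_mul, map_mul, map_mul, hp]
    simp [sub, Matrix.mulVec, dotProduct]

lemma sub_sub (g h : Matrix (Fin 3) (Fin 3) ℂ) (hgh : g * h = 1) (F : S) :
    sub h (sub g F) = F := by
  apply MvPolynomial.funext
  intro v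
  rw [eval_sub', eval_sub', Matrix.mulVec_mulVec, hgh, Matrix.one_mulVec]

lemma HasMult.transport (g h : Matrix (Fin 3) (Fin 3) ℂ) (h2 : h * g = 1)
    (F : S) (x : Fin 3 → ℂ) (k : ℕ) (hF : HasMult F x k) : HasMult (sub h F) (g.mulVec x) k := by
  constructor
  · apply mem_pow_of_hom (sub h : S →+* S) _ _ _ k F hF.1
    intro a ha
    rw [RingHom.mem_ker] at ha ⊢
    change eval _ (sub h a) = 0
    rw [eval_sub', Matrix.mulVec_mulVec, h2, Matrix.one_mulVec, ha]
  · intro hc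
    apply hF.2
    have := mem_pow_of_hom (sub g : S →+* S) _ (RingHom.ker (eval x)) (by
      intro a ha
      rw [RingHom.mem_ker] at ha ⊢
      change eval _ (sub g a) = 0
      rw [eval_sub', ha]) (k + 1) _ hc
    change sub g (sub h F) ∈ _ at this
    rwa [sub_sub h g h2] at this

lemma Good.transport (g : Matrix (Fin 3) (Fin 3) ℂ) (hg : g.det ≠ 0) (p : Fin 11 → Fin 3 → ℂ)
    (hp : Good p) : Good (fun i => g.mulVec (p i)) := by
  have hu : IsUnit g.det := isUnit_iff_ne_zero.2 hg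
  have h1 : g * g⁻¹ = 1 := Matrix.mul_nonsing_inv g hu
  have h2 : g⁻¹ * g = 1 := Matrix.nonsing_inv_mul g hu
  have hinj : ∀ a b : Fin 3 → ℂ, g.mulVec a = g.mulVec b → a = b := by
    intro a b hab
    have := congrArg (g⁻¹.mulVec) hab
    simpa [Matrix.mulVec_mulVec, h2] using this
  obtain ⟨p0, pp, F, hF, hsq, hm, x, hx0, hxp, hx⟩ := hp
  refine ⟨?_, ?_, sub g⁻¹ F, ?_, ?_, ?_, g.mulVec x, ?_, ?_, ?_⟩
  · intro i h
    exact p0 i (hinj _ _ (by simpa using h))
  · intro i j hij c h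
    exact pp i j hij c (hinj _ _ (by rw [Matrix.mulVec_smul]; exact h))
  · have := hF.aeval (fun i => ∑ j, C (g⁻¹ i j) * X j : Fin 3 → S) (n := 1) (fun i =>
      IsHomogeneous.sum _ _ _ (fun j _ => isHomogeneous_C_mul_X _ _))
    simpa [sub] using this
  · intro G hG
    have h3 : sub g G * sub g G ∣ F := by
      have := map_dvd (sub g) hG
      rwa [map_mul, sub_sub _ _ h2] at this
    have h4 := (hsq _ h3).map (sub g⁻¹)
    rwa [sub_sub _ _ h1] at h4
  · intro i
    exact HasMult.transport g g⁻¹ h2 _ _ _ (hm i)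
  · intro h
    exact hx0 (hinj _ _ (by simpa using h))
  · intro i c h
    exact hxp i c (hinj _ _ (by rw [Matrix.mulVec_smul]; exact h))
  · exact HasMult.transport g g⁻¹ h2 _ _ _ hx

/-- the nodal cubic -/
noncomputable def NN : S := X 0 ^ 3 + X 1 ^ 3 - X 0 * X 1 * X 2

noncomputable def Fc (c : ℕ → ℂ) : S :=
  X 2 ^ 3 + C (c 1) * (X 0 * X 2 ^ 2) + C (c 8) * (X 1 * X 2 ^ 2) +
    C (c 2 - c 8) * (X 0 ^ 2 * X 2) + C (c 7 - c 1) * (X 1 ^ 2 * X 2) + C (c 3 - 3) * X 0 ^ 3 +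
    C (c 6 - 3) * X 1 ^ 3 + C (c 4 - c 1 - c 7) * (X 0 ^ 2 * X 1) +
    C (c 5 - c 8 - c 2) * (X 0 * X 1 ^ 2)

def phi (t : ℂ) : Fin 3 → ℂ := ![t, t ^ 2, 1 + t ^ 3]

noncomputable def psi (s : ℂ) : S →ₐ[ℂ] Polynomial ℂ :=
  aeval ![Polynomial.C s * Polynomial.X, Polynomial.C s * Polynomial.X ^ 2,
    Polynomial.C s * (1 + Polynomial.X ^ 3)]

lemma eval_psi (s t : ℂ) (F : S) : (psi s F).eval t = eval (s • phi t) F := by
  induction F using MvPolynomial.induction_on with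
  | C a => simp [psi]
  | add p q hp hq => simp [hp, hq]
  | mul_X p i hp =>
    rw [map_mul, map_mul, Polynomial.eval_mul, hp]
    congr 1
    fin_cases i <;> simp [psi, phi]

lemma psi_N (s : ℂ) : psi s NN = 0 := by
  simp [psi, NN]; ring

lemma psi_F (s : ℂ) (P : Polynomial ℂ) (h9 : P.natDegree = 9) (hm : P.coeff 9 = 1)
    (h0 : P.coeff 0 = 1) : psi s (Fc P.coeff) = Polynomial.C s ^ 3 * P := by
  have h := P.as_sum_range_C_mul_X_pow
  rw [h9] at h
  simp only [Finset.sum_range_succ, Finset.range_zero, Finset.sum_empty, hm, h0] at h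
  conv_rhs => rw [h]
  simp [psi, Fc, map_ofNat]
  ring

lemma NN_hom : NN.IsHomogeneous 3 := by
  unfold NN
  exact ((isHomogeneous_X_pow 0 3).add (isHomogeneous_X_pow 1 3)).sub
    (((isHomogeneous_X _ 0).mul (isHomogeneous_X _ 1)).mul (isHomogeneous_X _ 2))

lemma Fc_hom (c : ℕ → ℂ) : (Fc c).IsHomogeneous 3 := by
  unfold Fc
  have a := fun i j : Fin 3 => (isHomogeneous_X ℂ i).mul (isHomogeneous_X_pow (R := ℂ) j 2)
  have b := fun i j : Fin 3 => (isHomogeneous_X_pow (R := ℂ) i 2).mul (isHomogeneous_X ℂ j)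
  exact ((((((((isHomogeneous_X_pow 2 3).add ((a 0 2).C_mul _)).add ((a 1 2).C_mul _)).add
    ((b 0 2).C_mul _)).add ((b 1 2).C_mul _)).add ((isHomogeneous_X_pow 0 3).C_mul _)).add
    ((isHomogeneous_X_pow 1 3).C_mul _)).add ((b 0 1).C_mul _)).add ((a 0 1).C_mul _)

lemma X_irr (i : Fin 3) : Prime (X i : S) := MvPolynomial.X_prime

lemma NN_irr : Irreducible NN := by
  have e : NN = (- (X 0 * X 1)) * X 2 + (X 0 ^ 3 + X 1 ^ 3) := by unfold NN; ring
  rw [e]
  apply irreducible_mul_X_add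
  · exact neg_ne_zero.2 (mul_ne_zero (X_ne_zero _) (X_ne_zero _))
  · rw [vars_neg]
    intro h
    have := vars_mul _ _ h
    simp [vars_X] at this
  · intro h
    have := vars_add_subset _ _ h
    rw [Finset.mem_union] at this
    rcases this with h | h
    · have := vars_pow _ _ h
      simp [vars_X] at this
    · have := vars_pow _ _ h
      simp [vars_X] at this
  · apply IsRelPrime.neg_left
    apply IsRelPrime.mul_left
    · rw [(X_irr 0).irreducible.isRelPrime_iff_not_dvd]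
      rintro ⟨q, hq⟩
      have := congrArg (eval ![0, 1, 0]) hq
      simp at this
    · rw [(X_irr 1).irreducible.isRelPrime_iff_not_dvd]
      rintro ⟨q, hq⟩
      have := congrArg (eval ![1, 0, 0]) hq
      simp at this

lemma affine (v : S) (h : v.totalDegree ≤ 1) :
    ∃ c0 c1 c2 c3 : ℂ, v = C c0 + C c1 * X 0 + C c2 * X 1 + C c3 * X 2 := by
  have h1 : v = homogeneousComponent 0 v + homogeneousComponent 1 v := by
    have := sum_homogeneousComponent v
    rcases Nat.le_one_iff_eq_zero_or_eq_one.1 h with e | e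
    · have h2 : homogeneousComponent 1 v = 0 := homogeneousComponent_eq_zero _ _ (by omega)
      rw [e] at this
      simp only [zero_add, Finset.range_one, Finset.sum_singleton] at this
      rw [h2, add_zero, this]
    · rw [e] at this
      simp only [Finset.sum_range_succ, Finset.range_zero, Finset.sum_empty, zero_add] at this
      exact this.symm
  have h2 := homogeneousComponent_mem 1 v
  rw [homogeneousSubmodule_one_eq_span_X, Submodule.mem_span_range_iff_exists_fun] at h2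
  obtain ⟨c, hc⟩ := h2
  refine ⟨coeff 0 v, c 0, c 1, c 2, ?_⟩
  rw [homogeneousComponent_zero, ← hc] at h1
  rw [h1]
  simp [Fin.sum_univ_three, smul_eq_C_mul]
  ring

noncomputable def Cq (c : ℕ → ℂ) (q : Fin 3 → ℂ) : S :=
  C (eval q NN) * Fc c - C (eval q (Fc c)) * NN

lemma Cq_hom (c : ℕ → ℂ) (q : Fin 3 → ℂ) : (Cq c q).IsHomogeneous 3 :=
  ((Fc_hom c).C_mul _).sub (NN_hom.C_mul _)

lemma psi_Cq (s : ℂ) (P : Polynomial ℂ) (h9 : P.natDegree = 9) (hm : P.coeff 9 = 1)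
    (h0 : P.coeff 0 = 1) (q : Fin 3 → ℂ) :
    psi s (Cq P.coeff q) = Polynomial.C (eval q NN * s ^ 3) * P := by
  unfold Cq
  rw [map_sub, map_mul, map_mul, psi_N, psi_F s P h9 hm h0]
  simp [psi]
  ring

lemma Cq_sqfree (P : Polynomial ℂ) (h9 : P.natDegree = 9) (hm : P.coeff 9 = 1)
    (h0 : P.coeff 0 = 1) (hP : Squarefree P) (q : Fin 3 → ℂ) (hq : eval q NN ≠ 0) :
    Squarefree (Cq P.coeff q) := by
  intro G hG
  have hps := psi_Cq 1 P h9 hm h0 q
  have hu : IsUnit (Polynomial.C (eval q NN * 1 ^ 3)) := by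
    rw [Polynomial.isUnit_C]; simpa using hq
  have hne : Cq P.coeff q ≠ 0 := by
    intro h
    rw [h, map_zero] at hps
    exact hP.ne_zero ((hu.mul_right_eq_zero).1 hps.symm)
  have h1 : IsUnit (psi 1 G) := by
    apply hP
    have := map_dvd (psi 1) hG
    rw [map_mul, hps] at this
    exact (hu.dvd_mul_left).1 this
  have hdeg : G.totalDegree ≤ 1 := by
    obtain ⟨H, hH⟩ := hG
    have hG0 : G ≠ 0 := by rintro rfl; simp at hH; exact hne hH
    have hH0 : H ≠ 0 := by rintro rfl; simp at hH; exact hne hH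
    have := (Cq_hom P.coeff q).totalDegree_le
    rw [hH, totalDegree_mul_of_isDomain (mul_ne_zero hG0 hG0) hH0,
      totalDegree_mul_of_isDomain hG0 hG0] at this
    omega
  obtain ⟨c0, c1, c2, c3, hc⟩ := affine G hdeg
  obtain ⟨r, hr, hr2⟩ := Polynomial.isUnit_iff.1 h1
  have e : psi 1 G = Polynomial.C (c0 + c3) + Polynomial.C c1 * Polynomial.X ^ 1 +
      Polynomial.C c2 * Polynomial.X ^ 2 + Polynomial.C c3 * Polynomial.X ^ 3 := by
    rw [hc]; simp [psi]; ring
  rw [e] at hr2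
  have a0 := congrArg (fun f => Polynomial.coeff f 0) hr2
  have a1 := congrArg (fun f => Polynomial.coeff f 1) hr2
  have a2 := congrArg (fun f => Polynomial.coeff f 2) hr2
  have a3 := congrArg (fun f => Polynomial.coeff f 3) hr2
  simp only [Polynomial.coeff_add, Polynomial.coeff_C_mul_X_pow, Polynomial.coeff_C] at a0 a1 a2 a3
  simp at a0 a1 a2 a3
  rw [hc, ← a1, ← a2, ← a3]
  rw [← a3, add_zero] at a0
  simpa [← a0] using hr.map (C : ℂ →+* S)

lemma Cq_rel (P : Polynomial ℂ) (h9 : P.natDegree = 9) (hm : P.coeff 9 = 1)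
    (h0 : P.coeff 0 = 1) (q q' : Fin 3 → ℂ) (hq : eval q NN ≠ 0)
    (hqq : eval q' (Cq P.coeff q) ≠ 0) : IsRelPrime (Cq P.coeff q) (Cq P.coeff q') := by
  intro d h1 h2
  have h3 : d ∣ C (eval q' (Cq P.coeff q)) * NN := by
    have : C (eval q' (Cq P.coeff q)) * NN =
        C (eval q' NN) * Cq P.coeff q - C (eval q NN) * Cq P.coeff q' := by
      simp [Cq]; ring
    rw [this]
    exact (h1.mul_left _).sub (h2.mul_left _)
  have hu : IsUnit (C (eval q' (Cq P.coeff q)) : S) := (isUnit_iff_ne_zero.2 hqq).map C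
  have h4 : d ∣ NN := (hu.dvd_mul_left).1 h3
  rcases (NN_irr.dvd_iff).1 h4 with h | h
  · exact h
  · exfalso
    have h5 : NN ∣ Cq P.coeff q := h.dvd.trans h1
    have := map_dvd (psi 1) h5
    rw [psi_N, zero_dvd_iff, psi_Cq 1 P h9 hm h0] at this
    rcases mul_eq_zero.1 this with h6 | h6
    · rw [Polynomial.C_eq_zero] at h6
      simp at h6
      exact hq h6
    · rw [h6] at h0; simp at h0

lemma pderiv_zero (x : Fin 3 → ℂ) (F : S) (h : F ∈ (RingHom.ker (eval x)) ^ 2) (i : Fin 3) :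
    eval x (pderiv i F) = 0 := by
  rw [pow_two] at h
  refine Submodule.mul_induction_on h ?_ ?_
  · intro a ha b hb
    rw [RingHom.mem_ker] at ha hb
    simp [Derivation.leibniz, ha, hb]
  · intro a b ha hb
    simp [ha, hb]

lemma mult_curve (P : Polynomial ℂ) (h9 : P.natDegree = 9) (hm : P.coeff 9 = 1)
    (h0 : P.coeff 0 = 1) (hP : Squarefree P) (q : Fin 3 → Fin 3 → ℂ) (hq : ∀ j, eval (q j) NN ≠ 0)
    (s t : ℂ) (hs : s ≠ 0) (ht : P.eval t = 0) :
    HasMult (Cq P.coeff (q 0) * Cq P.coeff (q 1) * Cq P.coeff (q 2)) (s • phi t) 3 := by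
  have hmem : ∀ j, Cq P.coeff (q j) ∈ RingHom.ker (eval (s • phi t)) := by
    intro j
    rw [RingHom.mem_ker, ← eval_psi, psi_Cq s P h9 hm h0]
    simp [ht]
  constructor
  · rw [pow_succ, pow_two]
    exact Ideal.mul_mem_mul (Ideal.mul_mem_mul (hmem 0) (hmem 1)) (hmem 2)
  · intro h
    have h1 := mem_pow_of_hom (psi s : S →+* Polynomial ℂ) _
      (Ideal.span {Polynomial.X - Polynomial.C t}) (by
        intro a ha
        rw [RingHom.mem_ker, ← eval_psi] at ha
        rw [Ideal.mem_span_singleton, Polynomial.dvd_iff_isRoot]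
        exact ha) _ _ h
    rw [Ideal.span_singleton_pow, Ideal.mem_span_singleton] at h1
    change _ ∣ psi s _ at h1
    rw [map_mul, map_mul, psi_Cq s P h9 hm h0, psi_Cq s P h9 hm h0, psi_Cq s P h9 hm h0] at h1
    obtain ⟨R, hR⟩ := Polynomial.dvd_iff_isRoot.2 ht
    obtain ⟨W, hW⟩ := h1
    have hX : (Polynomial.X - Polynomial.C t) ≠ 0 := Polynomial.X_sub_C_ne_zero t
    have h2 : Polynomial.C (eval (q 0) NN * s ^ 3) * Polynomial.C (eval (q 1) NN * s ^ 3) *
        Polynomial.C (eval (q 2) NN * s ^ 3) * R ^ 3 = (Polynomial.X - Polynomial.C t) * W := by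
      apply mul_left_cancel₀ (pow_ne_zero 3 hX)
      rw [hR] at hW
      linear_combination hW
    have h3 := congrArg (Polynomial.eval t) h2
    simp [hq, hs] at h3
    obtain ⟨R', hR'⟩ := Polynomial.dvd_iff_isRoot.2 h3
    have := hP (Polynomial.X - Polynomial.C t) ⟨R', by rw [hR, hR']; ring⟩
    exact Polynomial.not_isUnit_X_sub_C t this

end Pool.Agent.H.MP_b1ca72_ag
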