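import Mathlib

open MvPolynomial

namespace Pool.Agent.H.MP_b1ca72_ag

/-- `F` vanishes to order exactly `k` at the point `x`. -/
def HasMult (F : MvPolynomial (Fin 3) ℂ) (x : Fin 3 → ℂ) (k : ℕ) : Prop :=
  F ∈ (RingHom.ker (eval x)) ^ k ∧ F ∉ (RingHom.ker (eval x)) ^ (k + 1)

end Pool.Agent.H.MP_b1ca72_ag
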