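import Pool.Agent.H.MP_b1ca72_ag.Main

open MvPolynomial Topology Filter

set_option maxHeartbeats 400000

namespace Pool.Agent.H.MP_b1ca72_ag

noncomputable def Phi (a : E) : Fin 11 × Fin 3 → ℂ := fun ik =>
  a.1 ik.2 0 * conf a.2.1 a.2.2.1 a.2.2.2 ik.1 0 + a.1 ik.2 1 * conf a.2.1 a.2.2.1 a.2.2.2 ik.1 1 +
    a.1 ik.2 2 * conf a.2.1 a.2.2.1 a.2.2.2 ik.1 2

lemma Phi_eq (a : E) (i : Fin 11) :
    (fun k => Phi a (i, k)) = (Matrix.of a.1).mulVec (conf a.2.1 a.2.2.1 a.2.2.2 i) := by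
  ext k
  simp [Phi, Matrix.mulVec, dotProduct, Fin.sum_univ_three]

lemma Phi_left (a : E) (i : Fin 8) (k : Fin 3) : Phi a (Fin.castAdd 3 i, k) =
    a.1 k 0 * (a.2.2.1 i * a.2.1 i) + a.1 k 1 * (a.2.2.1 i * a.2.1 i ^ 2) +
      a.1 k 2 * (a.2.2.1 i * (1 + a.2.1 i ^ 3)) := by
  simp only [Phi, conf, Fin.append_left]
  simp [phi]

lemma Phi_right (a : E) (j : Fin 3) (k : Fin 3) : Phi a (Fin.natAdd 8 j, k) =
    a.1 k 0 * a.2.2.2 j 0 + a.1 k 1 * a.2.2.2 j 1 + a.1 k 2 * a.2.2.2 j 2 := by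
  simp only [Phi, conf, Fin.append_right]

lemma Phi_smooth : ContDiff ℂ 1 Phi := by
  rw [contDiff_pi]
  rintro ⟨i, k⟩
  refine Fin.addCases (m := 8) (n := 3) (fun i => ?_) (fun j => ?_) i
  · simp only [Phi_left]; fun_prop
  · simp only [Phi_right]; fun_prop

lemma lin_deriv (a v : ℂ) : HasDerivAt (fun u : ℂ => a + u * v) v 0 := by
  simpa using ((hasDerivAt_id (0 : ℂ)).mul_const v).const_add a

lemma fderiv_apply_eq (b v : E) (w : Fin 11 × Fin 3 → ℂ)
    (h : ∀ ik, HasDerivAt (fun u : ℂ => Phi (b + u • v) ik) (w ik) 0) : fderiv ℂ Phi b v = w := by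
  have h1 : HasDerivAt (fun u : ℂ => Phi (b + u • v)) w 0 := hasDerivAt_pi.2 h
  have h2 : HasDerivAt (fun u : ℂ => b + u • v) v 0 := by
    simpa using ((hasDerivAt_id (0 : ℂ)).smul_const v).const_add b
  have h3 : HasFDerivAt Phi (fderiv ℂ Phi b) (b + (0 : ℂ) • v) := by
    simpa using (Phi_smooth.differentiable (by norm_num) b).hasFDerivAt
  have h4 := HasFDerivAt.comp_hasDerivAt (l := Phi) (f := fun u : ℂ => b + u • v) (0 : ℂ) h3 h2
  exact h4.unique h1

lemma solve (t : Fin 8 → ℂ) (ht : ∀ i, t i ≠ 0) (hinj : Function.Injective t)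
    (w : Fin 8 → Fin 3 → ℂ) : ∃ (g : Fin 3 → Fin 3 → ℂ) (td sd : Fin 8 → ℂ), ∀ i k,
      w i k = g k 0 * t i + g k 1 * t i ^ 2 + g k 2 * (1 + t i ^ 3) + sd i * phi (t i) k +
        td i * ![1, 2 * t i, 3 * t i ^ 2] k := by
  let y : Fin 8 → ℂ := fun i =>
    (2 * t i - t i ^ 4) * w i 0 + (2 * t i ^ 3 - 1) * w i 1 - t i ^ 2 * w i 2
  let R := Lagrange.interpolate Finset.univ t y
  have hR : ∀ i, R.eval (t i) = y i := fun i =>
    Lagrange.eval_interpolate_at_node y hinj.injOn (Finset.mem_univ i)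
  have hdeg : R.natDegree < 8 := by
    have := Lagrange.degree_interpolate_lt (s := Finset.univ) (v := t) y hinj.injOn
    by_cases h0 : R = 0
    · rw [h0]; simp
    · rw [Polynomial.natDegree_lt_iff_degree_lt h0]
      rw [Finset.card_univ, Fintype.card_fin] at this
      exact this
  have hR2 : ∀ i, R.coeff 0 + R.coeff 1 * t i + R.coeff 2 * t i ^ 2 + R.coeff 3 * t i ^ 3 +
      R.coeff 4 * t i ^ 4 + R.coeff 5 * t i ^ 5 + R.coeff 6 * t i ^ 6 + R.coeff 7 * t i ^ 7 = y i := by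
    intro i
    rw [← hR i, Polynomial.eval_eq_sum_range' hdeg]
    simp [Finset.sum_range_succ]
  generalize R.coeff 0 = r0 at hR2
  generalize R.coeff 1 = r1 at hR2
  generalize R.coeff 2 = r2 at hR2
  generalize R.coeff 3 = r3 at hR2
  generalize R.coeff 4 = r4 at hR2
  generalize R.coeff 5 = r5 at hR2
  generalize R.coeff 6 = r6 at hR2
  generalize R.coeff 7 = r7 at hR2
  let g : Fin 3 → Fin 3 → ℂ :=
    ![![(2 * r2 + r5) / 3, -2 * r0 - r6, -r7],
      ![-2 * r7 - r1, (r2 + 2 * r5) / 3, -r0],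
      ![-5 * r0 - 2 * r6 - r3, -5 * r7 - 2 * r1 - r4, 0]]
  let z : Fin 8 → Fin 3 → ℂ := fun i k =>
    w i k - (g k 0 * t i + g k 1 * t i ^ 2 + g k 2 * (1 + t i ^ 3))
  refine ⟨g, fun i => (z i 1 - t i * z i 0) / t i, fun i => (2 * t i * z i 0 - z i 1) / t i ^ 2, ?_⟩
  intro i k
  have h1 := ht i
  have h2 := hR2 i
  fin_cases k
  · simp [phi, z]; field_simp; ring
  · simp [phi, z]; field_simp; ring
  · simp [phi, z, g]
    field_simp
    simp only [y] at h2
    linear_combination 3 * h2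

lemma surj : (fderiv ℂ Phi a0).range = ⊤ := by
  rw [LinearMap.range_eq_top]
  intro w
  have ht : ∀ i, t0 i ≠ 0 := cond0.1
  have hinj : Function.Injective t0 := by
    intro i j hij
    by_contra hne
    exact cond0.2.1 i.succ j.succ (fun e => hne (Fin.succ_injective _ e)) (by simpa [tau] using hij)
  obtain ⟨g, td, sd, h⟩ := solve t0 ht hinj (fun i k => w (Fin.castAdd 3 i, k))
  let qd : Fin 3 → Fin 3 → ℂ := fun j k =>
    w (Fin.natAdd 8 j, k) - (g k 0 * q0 j 0 + g k 1 * q0 j 1 + g k 2 * q0 j 2)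
  refine ⟨(g, td, sd, qd), fderiv_apply_eq _ _ _ ?_⟩
  rintro ⟨i, k⟩
  refine Fin.addCases (m := 8) (n := 3) (fun i => ?_) (fun j => ?_) i
  · simp only [Phi_left, a0, Prod.fst_add, Prod.snd_add, Prod.smul_fst, Prod.smul_snd, Pi.add_apply,
      Pi.smul_apply, smul_eq_mul]
    have hT := lin_deriv (t0 i) (td i)
    have hS := lin_deriv 1 (sd i)
    have hG := fun l => lin_deriv ((1 : Matrix (Fin 3) (Fin 3) ℂ) k l) (g k l)
    have := (((hG 0).mul (hS.mul hT)).add ((hG 1).mul (hS.mul (hT.pow 2)))).add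
      ((hG 2).mul (hS.mul ((hT.pow 3).const_add 1)))
    refine this.congr_deriv ?_
    rw [h i k]
    fin_cases k <;> simp [phi, Matrix.one_apply] <;> ring
  · simp only [Phi_right, a0, Prod.fst_add, Prod.snd_add, Prod.smul_fst, Prod.smul_snd, Pi.add_apply,
      Pi.smul_apply, smul_eq_mul]
    have hQ := fun l => lin_deriv (q0 j l) (qd j l)
    have hG := fun l => lin_deriv ((1 : Matrix (Fin 3) (Fin 3) ℂ) k l) (g k l)
    have := (((hG 0).mul (hQ 0)).add ((hG 1).mul (hQ 1))).add ((hG 2).mul (hQ 2))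
    refine this.congr_deriv ?_
    fin_cases k <;> simp [qd, Matrix.one_apply] <;> ring

lemma good_nhds : ∀ᶠ y in 𝓝 (Phi a0), Good (fun i k => y (i, k)) := by
  have h1 : HasStrictFDerivAt Phi (fderiv ℂ Phi a0) a0 :=
    Phi_smooth.contDiffAt.hasStrictFDerivAt (by norm_num)
  rw [← h1.map_nhds_eq_of_surj surj, eventually_map]
  refine (cond_nhds a0 (by simp [a0, Matrix.det_fin_three]) cond0).mono ?_
  rintro a ⟨hd, hc⟩
  have := (good_conf _ _ _ hc).transport _ hd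
  have e : (fun i k => Phi a (i, k)) =
      fun i => (Matrix.of a.1).mulVec (conf a.2.1 a.2.2.1 a.2.2.2 i) := funext (Phi_eq a)
  rw [e]
  exact this

lemma dense_ne {σ : Type} [Fintype σ] (G : MvPolynomial σ ℂ) (hG : G ≠ 0) :
    Dense {y : σ → ℂ | eval y G ≠ 0} := by
  intro y
  rw [Metric.mem_closure_iff]
  intro ε hε
  by_contra hcon
  push Not at hcon
  apply hG
  apply MvPolynomial.funext_set (fun i => Metric.ball (y i) ε)
  · intro i
    exact infinite_of_mem_nhds (y i) (Metric.ball_mem_nhds _ hε)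
  · intro x hx
    by_contra hne
    have h1 := hcon x (by simpa using hne)
    have h2 : dist y x < ε := by
      rw [dist_pi_lt_iff hε]
      intro i
      have := hx i (Set.mem_univ i)
      rwa [Metric.mem_ball, dist_comm] at this
    linarith

theorem main (G : ℕ → MvPolynomial (Fin 11 × Fin 3) ℂ) (hG : ∀ n, G n ≠ 0) :
    ∃ p : Fin 11 → Fin 3 → ℂ, (∀ n, eval (fun ik => p ik.1 ik.2) (G n) ≠ 0) ∧ Good p := by
  have hd : Dense (⋂ n, {y : Fin 11 × Fin 3 → ℂ | eval y (G n) ≠ 0}) :=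
    dense_iInter_of_isOpen (fun n => isOpen_ne_fun (MvPolynomial.continuous_eval _) continuous_const)
      (fun n => dense_ne _ (hG n))
  obtain ⟨y, hy1, hy2⟩ := hd.inter_nhds_nonempty good_nhds
  refine ⟨fun i k => y (i, k), ?_, hy2⟩
  intro n
  exact Set.mem_iInter.1 hy1 n

end Pool.Agent.H.MP_b1ca72_ag
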