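import Pool.Agent.H.MP_b1ca72_ag.Alg

open MvPolynomial Topology Filter

set_option maxHeartbeats 400000

namespace Pool.Agent.H.MP_b1ca72_ag

noncomputable def tau (t : Fin 8 → ℂ) : Fin 9 → ℂ := Fin.cons (-(∏ i, t i)⁻¹) t

noncomputable def PP (t : Fin 8 → ℂ) : Polynomial ℂ :=
  ∏ i, (Polynomial.X - Polynomial.C (tau t i))

def conf (t s : Fin 8 → ℂ) (q : Fin 3 → Fin 3 → ℂ) : Fin 11 → Fin 3 → ℂ :=
  Fin.append (m := 8) (n := 3) (fun i => s i • phi (t i)) q

def Cond (t s : Fin 8 → ℂ) (q : Fin 3 → Fin 3 → ℂ) : Prop :=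
  (∀ i, t i ≠ 0) ∧ (∀ i j, i ≠ j → tau t i ≠ tau t j) ∧ (∀ i, s i ≠ 0) ∧
    (∀ j, eval (q j) NN ≠ 0) ∧ (∀ j k, j ≠ k → eval (q k) (Cq (PP t).coeff (q j)) ≠ 0) ∧
    (∀ j, eval (q j) (pderiv 2 (Cq (PP t).coeff (q j))) ≠ 0)

lemma PP_monic (t : Fin 8 → ℂ) : (PP t).Monic :=
  Polynomial.monic_prod_of_monic _ _ fun _ _ => Polynomial.monic_X_sub_C _

lemma PP_deg (t : Fin 8 → ℂ) : (PP t).natDegree = 9 := by
  unfold PP
  rw [Polynomial.natDegree_prod_of_monic _ _ fun _ _ => Polynomial.monic_X_sub_C _]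
  simp

lemma PP_nine (t : Fin 8 → ℂ) : (PP t).coeff 9 = 1 := by
  have := (PP_monic t).coeff_natDegree
  rwa [PP_deg] at this

lemma PP_zero (t : Fin 8 → ℂ) (ht : ∀ i, t i ≠ 0) : (PP t).coeff 0 = 1 := by
  have h : ∏ i, t i ≠ 0 := Finset.prod_ne_zero_iff.2 fun i _ => ht i
  rw [Polynomial.coeff_zero_eq_eval_zero, PP, Polynomial.eval_prod, Fin.prod_univ_succ]
  simp only [tau, Fin.cons_zero, Fin.cons_succ, Polynomial.eval_sub, Polynomial.eval_X,
    Polynomial.eval_C, zero_sub, neg_neg]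
  rw [Finset.prod_neg]
  norm_num
  exact inv_mul_cancel₀ h

lemma PP_root (t : Fin 8 → ℂ) (i : Fin 9) : (PP t).eval (tau t i) = 0 := by
  rw [PP, Polynomial.eval_prod]
  exact Finset.prod_eq_zero (Finset.mem_univ i) (by simp)

lemma eval_smul (F : S) (n : ℕ) (hF : F.IsHomogeneous n) (c : ℂ) (v : Fin 3 → ℂ)
    (h : eval v F = 0) (hn : n = 3) (hF' : F = NN ∨ ∃ d q, F = Cq d q) : eval (c • v) F = 0 := by
  rcases hF' with rfl | ⟨d, q, rfl⟩
  · simp [NN] at h ⊢
    linear_combination c ^ 3 * h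
  · simp only [Cq, map_sub, map_mul, eval_C] at h ⊢
    have e1 : eval (c • v) NN = c ^ 3 * eval v NN := by simp [NN]; ring
    have e2 : eval (c • v) (Fc d) = c ^ 3 * eval v (Fc d) := by simp [Fc]; ring
    rw [e1, e2]
    linear_combination c ^ 3 * h

lemma N_phi (s t : ℂ) : eval (s • phi t) NN = 0 := by
  rw [← eval_psi, psi_N]; simp

lemma phi_ne (s t s' t' c : ℂ) (hs : s ≠ 0) (ht : t ≠ 0) (h : s • phi t = c • s' • phi t') :
    t = t' := by
  have h0 := congrFun h 0
  have h1 := congrFun h 1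
  simp [phi] at h0 h1
  apply mul_left_cancel₀ (mul_ne_zero hs ht)
  linear_combination h1 - t' * h0

lemma good_conf (t s : Fin 8 → ℂ) (q : Fin 3 → Fin 3 → ℂ) (h : Cond t s q) :
    Good (conf t s q) := by
  obtain ⟨ht, hinj, hs, hN, hC, hD⟩ := h
  have h9 := PP_deg t
  have hm := PP_nine t
  have h0 := PP_zero t ht
  have hP : Squarefree (PP t) := by
    apply Polynomial.Separable.squarefree
    rw [PP, Polynomial.separable_prod_X_sub_C_iff]
    intro i j hij
    by_contra hne
    exact hinj i j hne hij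
  have hq0 : ∀ j, eval (q j) (Cq (PP t).coeff (q j)) = 0 := by
    intro j; simp [Cq]; ring
  have hτ : tau t 0 ≠ 0 := by
    simp only [tau, Fin.cons_zero]
    exact neg_ne_zero.2 (inv_ne_zero (Finset.prod_ne_zero_iff.2 fun i _ => ht i))
  refine ⟨?_, ?_, Cq (PP t).coeff (q 0) * Cq (PP t).coeff (q 1) * Cq (PP t).coeff (q 2),
    ((Cq_hom _ _).mul (Cq_hom _ _)).mul (Cq_hom _ _), ?_, ?_, (1 : ℂ) • phi (tau t 0), ?_, ?_,
    mult_curve _ h9 hm h0 hP q hN 1 _ one_ne_zero (PP_root t 0)⟩
  · intro i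
    refine Fin.addCases (m := 8) (n := 3) (fun i => ?_) (fun j => ?_) i
    · rw [conf, Fin.append_left]
      intro h
      have := congrFun h 0
      simp [phi, hs, ht] at this
    · rw [conf, Fin.append_right]
      intro h
      apply hN j
      rw [h]; simp [NN]
  · intro i j
    refine Fin.addCases (m := 8) (n := 3) (fun i => ?_) (fun i => ?_) i <;>
    refine Fin.addCases (m := 8) (n := 3) (fun j => ?_) (fun j => ?_) j <;>
    intro hij c <;> simp only [conf, Fin.append_left, Fin.append_right] <;> intro h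
    · have := phi_ne _ _ _ _ _ (hs i) (ht i) h
      refine hinj i.succ j.succ ?_ (by simpa [tau] using this)
      intro e
      apply hij
      rw [Fin.succ_injective _ e]
    · have hc : c ≠ 0 := by
        rintro rfl
        have := congrFun h 0
        simp [phi, hs, ht] at this
      apply hN j
      have : q j = c⁻¹ • s i • phi (t i) := by rw [h, smul_smul, inv_mul_cancel₀ hc, one_smul]
      rw [this, smul_smul, N_phi]
    · apply hN i
      rw [h, smul_smul, N_phi]
    · refine hC j i (fun e => hij (by rw [e])) ?_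
      rw [h]
      exact eval_smul _ 3 (Cq_hom _ _) c _ (hq0 j) rfl (Or.inr ⟨_, _, rfl⟩)
  · have r01 := Cq_rel _ h9 hm h0 (q 0) (q 1) (hN 0) (hC 0 1 (by decide))
    have r02 := Cq_rel _ h9 hm h0 (q 0) (q 2) (hN 0) (hC 0 2 (by decide))
    have r12 := Cq_rel _ h9 hm h0 (q 1) (q 2) (hN 1) (hC 1 2 (by decide))
    rw [squarefree_mul_iff, squarefree_mul_iff]
    exact ⟨r02.mul_left r12, ⟨r01, Cq_sqfree _ h9 hm h0 hP _ (hN 0),
      Cq_sqfree _ h9 hm h0 hP _ (hN 1)⟩, Cq_sqfree _ h9 hm h0 hP _ (hN 2)⟩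
  · intro i
    refine Fin.addCases (m := 8) (n := 3) (fun i => ?_) (fun j => ?_) i
    · rw [conf, Fin.append_left]
      have : mm (Fin.castAdd 3 i) = 3 := by fin_cases i <;> rfl
      rw [this]
      exact mult_curve _ h9 hm h0 hP q hN _ _ (hs i) (by simpa [tau] using PP_root t i.succ)
    · rw [conf, Fin.append_right]
      have : mm (Fin.natAdd 8 j) = 1 := by fin_cases j <;> rfl
      rw [this]
      constructor
      · rw [pow_one, RingHom.mem_ker, map_mul, map_mul]
        fin_cases j <;> simp [hq0]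
      · intro h
        have := pderiv_zero _ _ h 2
        have a01 := hC 0 1 (by decide)
        have a02 := hC 0 2 (by decide)
        have a10 := hC 1 0 (by decide)
        have a12 := hC 1 2 (by decide)
        have a20 := hC 2 0 (by decide)
        have a21 := hC 2 1 (by decide)
        simp only [Derivation.leibniz, smul_eq_mul, map_add, map_mul] at this
        fin_cases j <;> simp [hq0, hD, a01, a02, a10, a12, a20, a21] at this
  · intro h
    have := congrFun h 0
    simp [phi, hτ] at this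
  · intro i
    refine Fin.addCases (m := 8) (n := 3) (fun i => ?_) (fun j => ?_) i <;>
    intro c <;> simp only [conf, Fin.append_left, Fin.append_right] <;> intro h
    · have := phi_ne _ _ _ _ _ one_ne_zero hτ h
      exact hinj 0 i.succ (Fin.succ_ne_zero i).symm (by simpa [tau] using this)
    · have hc : c ≠ 0 := by
        rintro rfl
        have := congrFun h 0
        simp [phi, hτ] at this
      apply hN j
      have : q j = c⁻¹ • (1 : ℂ) • phi (tau t 0) := by
        rw [h, smul_smul, inv_mul_cancel₀ hc, one_smul]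
      rw [this, smul_smul, N_phi]

abbrev E := (Fin 3 → Fin 3 → ℂ) × (Fin 8 → ℂ) × (Fin 8 → ℂ) × (Fin 3 → Fin 3 → ℂ)

noncomputable def t0 : Fin 8 → ℂ := ![2, 1 / 2, -2, -1 / 2, 3, 1 / 3, -3, -1 / 3]
def q0 : Fin 3 → Fin 3 → ℂ := ![![1, 0, 0], ![1, 0, 1], ![0, 1, 2]]
noncomputable def a0 : E := ((1 : Matrix (Fin 3) (Fin 3) ℂ), t0, fun _ => 1, q0)

lemma prod_t0 : ∏ i, t0 i = 1 := by
  simp [t0, Fin.prod_univ_succ]; norm_num

lemma tau_t0 : tau t0 = ![-1, 2, 1 / 2, -2, -1 / 2, 3, 1 / 3, -3, -1 / 3] := by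
  unfold tau
  rw [prod_t0]
  ext i
  fin_cases i <;> simp [t0]

noncomputable def c0 : ℕ → ℂ := fun k =>
  if k = 0 ∨ k = 1 ∨ k = 8 ∨ k = 9 then 1 else if k = 2 ∨ k = 3 ∨ k = 6 ∨ k = 7 then -481 / 36
  else if k = 4 ∨ k = 5 then 733 / 18 else 0

lemma PP_t0 : PP t0 = ∑ k ∈ Finset.range 10, Polynomial.C (c0 k) * Polynomial.X ^ k := by
  apply Polynomial.funext
  intro x
  rw [PP, tau_t0, Polynomial.eval_prod]
  simp [Fin.prod_univ_succ, Finset.sum_range_succ, c0]
  ring

lemma coeff_t0 (k : ℕ) (hk : k < 10) : (PP t0).coeff k = c0 k := by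
  rw [PP_t0, Polynomial.finsetSum_coeff]
  simp only [Polynomial.coeff_C_mul_X_pow]
  rw [Finset.sum_ite_eq]
  simp [hk]

lemma cond0 : Cond t0 (fun _ => 1) q0 := by
  have e : Fc (PP t0).coeff = Fc c0 := by
    simp only [Fc]
    rw [coeff_t0 1 (by norm_num), coeff_t0 2 (by norm_num), coeff_t0 3 (by norm_num),
      coeff_t0 4 (by norm_num), coeff_t0 5 (by norm_num), coeff_t0 6 (by norm_num),
      coeff_t0 7 (by norm_num), coeff_t0 8 (by norm_num)]
  refine ⟨?_, ?_, ?_, ?_, ?_, ?_⟩
  · intro i; fin_cases i <;> simp [t0]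
  · rw [tau_t0]
    intro i j hij
    fin_cases i <;> fin_cases j <;> simp at hij ⊢ <;> norm_num
  · simp
  · intro j; fin_cases j <;> simp [q0, NN]
  · intro j k hjk
    simp only [Cq, e]
    fin_cases j <;> fin_cases k <;> simp at hjk <;> simp [q0, NN, Fc, c0] <;> norm_num
  · intro j
    simp only [Cq, e]
    fin_cases j <;> simp [q0, NN, Fc, c0, Derivation.leibniz, Derivation.leibniz_pow] <;> norm_num

lemma cont_coeff {Y : Type*} [TopologicalSpace Y] {ι : Type*} (s : Finset ι) (f : Y → ι → ℂ) (y : Y)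
    (hf : ∀ i, ContinuousAt (fun x => f x i) y) (k : ℕ) :
    ContinuousAt (fun x => (∏ i ∈ s, (Polynomial.X - Polynomial.C (f x i))).coeff k) y := by
  classical
  induction s using Finset.induction_on generalizing k with
  | empty => simpa using continuousAt_const
  | insert a s ha ih =>
    simp only [Finset.prod_insert ha, sub_mul, Polynomial.coeff_sub, Polynomial.coeff_C_mul]
    refine ContinuousAt.sub ?_ ((hf a).mul (ih k))
    cases k with
    | zero => simpa using continuousAt_const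
    | succ k => simpa [Polynomial.coeff_X_mul] using ih k

lemma cont_F {Y : Type*} [TopologicalSpace Y] (c : Y → ℕ → ℂ) (v : Y → Fin 3 → ℂ) (y : Y)
    (hc : ∀ k, ContinuousAt (fun x => c x k) y) (hv : ∀ k, ContinuousAt (fun x => v x k) y) :
    ContinuousAt (fun x => eval (v x) (Fc (c x))) y ∧
      ContinuousAt (fun x => eval (v x) (pderiv 2 (Fc (c x)))) y ∧
      ContinuousAt (fun x => eval (v x) NN) y ∧ ContinuousAt (fun x => eval (v x) (pderiv 2 NN)) y := by
  have hc1 := hc 1
  have hc2 := hc 2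
  have hc3 := hc 3
  have hc4 := hc 4
  have hc5 := hc 5
  have hc6 := hc 6
  have hc7 := hc 7
  have hc8 := hc 8
  have hv0 := hv 0
  have hv1 := hv 1
  have hv2 := hv 2
  refine ⟨?_, ?_, ?_, ?_⟩
  · simp only [Fc, map_add, map_mul, map_pow, eval_X, eval_C]; fun_prop
  · simp [Fc, Derivation.leibniz, Derivation.leibniz_pow]; fun_prop
  · simp only [NN, map_sub, map_add, map_mul, map_pow, eval_X]; fun_prop
  · simp [NN, Derivation.leibniz, Derivation.leibniz_pow]; fun_prop

lemma cond_nhds (b : E) (hdet : Matrix.det (Matrix.of b.1) ≠ 0)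
    (hb : Cond b.2.1 b.2.2.1 b.2.2.2) : ∀ᶠ a : E in 𝓝 b, Matrix.det (Matrix.of a.1) ≠ 0 ∧ Cond a.2.1 a.2.2.1 a.2.2.2 := by
  obtain ⟨h1, h2, h3, h4, h5, h6⟩ := hb
  have hτ : ∀ i, ContinuousAt (fun a : E => tau a.2.1 i) b := by
    intro i
    refine Fin.cases ?_ (fun i => ?_) i
    · simp only [tau, Fin.cons_zero]
      refine ContinuousAt.neg (ContinuousAt.inv₀ (by fun_prop) ?_)
      exact Finset.prod_ne_zero_iff.2 fun i _ => h1 i
    · simp only [tau, Fin.cons_succ]
      fun_prop
  have hc : ∀ k, ContinuousAt (fun a : E => (PP a.2.1).coeff k) b := fun k =>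
    cont_coeff Finset.univ (fun a : E => tau a.2.1) b hτ k
  have hall := fun j => cont_F (fun a : E => (PP a.2.1).coeff) (fun a : E => a.2.2.2 j) b hc
    (fun k => by fun_prop)
  have hF := fun j => (hall j).1
  have hF' := fun j => (hall j).2.1
  have hN := fun j => (hall j).2.2.1
  have hN' := fun j => (hall j).2.2.2
  refine Eventually.and ?_ (Eventually.and ?_ (Eventually.and ?_ (Eventually.and ?_
    (Eventually.and ?_ (Eventually.and ?_ ?_)))))
  · apply ContinuousAt.eventually_ne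
    · simp only [Matrix.det_fin_three, Matrix.of_apply]; fun_prop
    · exact hdet
  · exact eventually_all.2 fun i => ContinuousAt.eventually_ne (by fun_prop) (h1 i)
  · refine eventually_all.2 fun i => eventually_all.2 fun j => ?_
    by_cases hij : i = j
    · simp [hij]
    · have h7 : (fun a : E => tau a.2.1 i - tau a.2.1 j) b ≠ 0 := sub_ne_zero.2 (h2 i j hij)
      have h8 : ContinuousAt (fun a : E => tau a.2.1 i - tau a.2.1 j) b := (hτ i).sub (hτ j)
      have := h8.eventually_ne h7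
      exact this.mono fun a ha _ => sub_ne_zero.1 ha
  · exact eventually_all.2 fun i => ContinuousAt.eventually_ne (by fun_prop) (h3 i)
  · refine eventually_all.2 fun i => ?_
    have := ContinuousAt.eventually_ne (hN i) (h4 i)
    exact this
  · refine eventually_all.2 fun i => eventually_all.2 fun j => ?_
    by_cases hij : i = j
    · simp [hij]
    · refine (ContinuousAt.eventually_ne (g := fun a : E => eval (a.2.2.2 j)
        (Cq (PP a.2.1).coeff (a.2.2.2 i))) ?_ (h5 i j hij)).mono fun a ha _ => ha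
      simp only [Cq, map_sub, map_mul, eval_C]
      exact ((hN i).mul (hF j)).sub ((hF i).mul (hN j))
  · refine eventually_all.2 fun i => ContinuousAt.eventually_ne ?_ (h6 i)
    simp only [Cq, map_sub, pderiv_C_mul, map_mul, eval_C]
    exact ((hN i).mul (hF' i)).sub ((hF i).mul (hN' i))

end Pool.Agent.H.MP_b1ca72_ag
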